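import Pool.Agent.H152R2.PlanarRel

/-!
No finite abelian group contains a planar difference set of order `m (m + 2)`, `m` odd, `m ≥ 3`.
-/

namespace Pool.Agent.Results.MP_104832_co.OddProduct

open Pool.Agent.H152R2 Finset

variable {G : Type*} [AddCommGroup G]

/-- `D` is a planar difference set of order `n` in the additive abelian group `G`:
`G` is finite with `n ^ 2 + n + 1` elements, `D` has `n + 1` elements and every non-zero element of
`G` is in exactly one way a difference of two elements of `D`. -/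
def IsPlanarDifferenceSet (G : Type*) [AddCommGroup G] (n : ℕ) (D : Finset G) : Prop :=
  Nat.card G = n ^ 2 + n + 1 ∧ D.card = n + 1 ∧
    ∀ g : G, g ≠ 0 → ∃! q : G × G, q.1 ∈ D ∧ q.2 ∈ D ∧ q.1 - q.2 = g

/-- In order `m (m + 2)` with `3 ∣ m (m + 2)` every element is killed by `m - 1`. -/
lemma killed {n m : ℕ} {D : Finset G} (h : IsPDS n D) (hodd : Odd n) (hm : 3 ≤ m)
    (h3 : ∀ x ∈ D, 3 • x ∈ D)
    (hm1 : ∀ x ∈ D, m • x ∈ D) (hm2 : ∀ x ∈ D, (m + 2) • x ∈ D) (g : G) : (m - 1) • g = 0 := by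
  have hcop2 : Nat.Coprime 2 (n ^ 2 + n + 1) := by
    rw [Nat.coprime_two_left]
    obtain ⟨k, rfl⟩ := hodd
    exact ⟨2 * k ^ 2 + 3 * k + 1, by ring⟩
  have hD : ∀ x ∈ D, (m - 1) • x = 0 := by
    intro x hx
    by_cases hx0 : x = 0
    · rw [hx0, smul_zero]
    · have h2 : 2 • x ≠ 0 := fun h2 => hx0 (h.smul_inj_of_coprime hcop2 h2)
      have h4 : (3 • x : G) - x = 2 • x := by abel
      have h5 : (m + 2) • x - m • x = 2 • x := by rw [add_smul]; abel
      have h6 : (3 • x : G) ≠ x := by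
        intro h7; apply h2; rw [← h4, h7, sub_self]
      have h8 := h.uniq (h3 x hx) hx (hm2 x hx) (hm1 x hx) (h4.trans h5.symm) h6
      have h9 : m = (m - 1) + 1 := by omega
      have h10 : x = (m - 1) • x + x := by
        conv_lhs => rw [h8.2]
        conv_lhs => rw [h9]
        rw [add_smul, one_smul]
      have := sub_eq_zero.2 h10
      have h11 : x - ((m - 1) • x + x) = - ((m - 1) • x) := by abel
      rw [h11, neg_eq_zero] at this
      exact this
  by_cases hg : g = 0
  · rw [hg, smul_zero]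
  · obtain ⟨q, ⟨h1, h2, hq⟩, _⟩ := h.diff g hg
    rw [← hq, smul_sub, hD _ h1, hD _ h2, sub_self]

lemma zmod157 : ∀ a : ZMod 157, a ^ 2 + a + 1 ≠ -1 := by decide +kernel

/-- The order is not congruent to `2` modulo `3`. -/
lemma zero_notMem {n : ℕ} {D : Finset G} (h : IsPDS n D) (hn : n % 3 = 2)
    (hs : ∀ x ∈ D, n • x ∈ D) : (0 : G) ∉ D := by
  classical
  intro h0
  have hn0 : 0 < n := by omega
  have hcop : Nat.Coprime (n - 1) (n ^ 2 + n + 1) := by
    obtain ⟨k, hk⟩ : ∃ k, n = 3 * k + 2 := ⟨n / 3, by omega⟩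
    have h1 : n - 1 = 3 * k + 1 := by omega
    have h2 : n ^ 2 + n + 1 = 3 + (3 * k + 1) * (3 * k + 4) := by rw [hk]; ring
    rw [h1, h2, Nat.coprime_add_mul_left_right]
    rw [Nat.coprime_comm, Nat.Prime.coprime_iff_not_dvd Nat.prime_three]
    omega
  have hfix : ∀ x : G, n • x = x → x = 0 := by
    intro x hx
    apply h.smul_inj_of_coprime hcop
    have h9 : n = (n - 1) + 1 := by omega
    rw [h9, add_smul, one_smul] at hx
    exact add_eq_right.1 hx
  have hcube : ∀ x : G, n • n • n • x = x := by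
    intro x
    have h1 : (n ^ 2 + n + 1) • x = 0 := by
      rw [← h.card_group]
      exact card_nsmul_eq_zero'
    have h2 : n * n * n = (n - 1) * (n ^ 2 + n + 1) + 1 := by
      obtain ⟨k, rfl⟩ : ∃ k, n = k + 1 := ⟨n - 1, by omega⟩
      simp only [Nat.add_sub_cancel]
      ring
    rw [← mul_smul, ← mul_smul, h2, add_smul, mul_smul, h1, smul_zero, zero_add, one_smul]
  -- the action on the non-zero elements of `D`
  have hmem : ∀ x ∈ D.erase 0, n • x ∈ D.erase 0 := by
    intro x hx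
    rw [Finset.mem_erase] at hx ⊢
    refine ⟨fun h1 => hx.1 ?_, hs x hx.2⟩
    rw [← hcube x, h1, smul_zero, smul_zero]
  let f : {x // x ∈ D.erase 0} → {x // x ∈ D.erase 0} := fun x => ⟨n • x.1, hmem x.1 x.2⟩
  have hf3 : ∀ x, f (f (f x)) = x := fun x => Subtype.ext (hcube x.1)
  let σ : Equiv.Perm {x // x ∈ D.erase 0} := ⟨f, fun x => f (f x), fun x => hf3 x, fun x => hf3 x⟩
  have hσ : σ ^ 3 ^ 1 = 1 := by
    ext x
    have : (σ ^ 3 ^ 1) x = σ (σ (σ x)) := rfl
    rw [this]
    exact congrArg Subtype.val (hf3 x)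
  have hcard : Fintype.card {x // x ∈ D.erase 0} = n := by
    rw [Fintype.card_coe, Finset.card_erase_of_mem h0, h.card, Nat.add_sub_cancel]
  have : Fact (Nat.Prime 3) := ⟨Nat.prime_three⟩
  obtain ⟨a, ha⟩ := Equiv.Perm.exists_fixed_point_of_prime (p := 3) (n := 1)
    (by rw [hcard]; omega) hσ
  have h1 : n • a.1 = a.1 := congrArg Subtype.val ha
  exact (Finset.mem_erase.1 a.2).1 (hfix _ h1)

theorem main (m : ℕ) (hm : Odd m) (h3 : 3 ≤ m) (D : Finset G) : ¬ IsPDS (m * (m + 2)) D := by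
  classical
  intro hD
  obtain ⟨D', h, h0⟩ := hD.exists_normalised
  set n := m * (m + 2) with hn
  have hnpos : 15 ≤ n := by rw [hn]; nlinarith
  have hodd : Odd n := hm.mul (by obtain ⟨k, rfl⟩ := hm; exact ⟨k + 1, by ring⟩)
  have hs1 : ∀ x ∈ D', m • x ∈ D' := fun x hx =>
    h.smul_mem h0 (by omega) (by omega) (fun r _ hr => by rw [hn]; exact hr.mul_right _) hx
  have hs2 : ∀ x ∈ D', (m + 2) • x ∈ D' := fun x hx =>
    h.smul_mem h0 (by omega) (by omega) (fun r _ hr => by rw [hn]; exact hr.mul_left _) hx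
  have hs3 : ∀ x ∈ D', n • x ∈ D' := fun x hx =>
    h.smul_mem h0 (by omega) (by omega) (fun r _ hr => hr) hx
  by_cases hmod : m % 3 = 2
  · -- `n ≡ 2 mod 3`
    have hn2 : n % 3 = 2 := by
      rw [hn, Nat.mul_mod, Nat.add_mod, hmod]
    have hz := zero_notMem h hn2 hs3
    exact h.no_two_rel hodd (by omega) hz hs1 hs2
      (Nat.Coprime.coprime_dvd_left (Dvd.intro _ rfl) (IsPDS.coprime_card' n)) rfl
  · have h3n : 3 ∣ n := by
      rw [hn]
      have : m % 3 = 0 ∨ m % 3 = 1 := by omega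
      rcases this with h1 | h1
      · exact (Nat.dvd_of_mod_eq_zero h1).mul_right _
      · exact Dvd.dvd.mul_left (by omega) _
    have h9 : 9 ∣ n := h.nine_dvd h0 (by omega) h3n
    have hD3 : ∀ x ∈ D', 3 • x ∈ D' := fun x hx =>
      h.prime_smul_mem h0 (by omega) Nat.prime_three h3n hx
    have hkill := killed h hodd h3 hD3 hs1 hs2
    have := h.finite
    have := Fintype.ofFinite G
    have hv : Fintype.card G = n ^ 2 + n + 1 := by rw [← Nat.card_eq_fintype_card, h.card_group]
    have hprime : ∀ q : ℕ, q.Prime → q ∣ n ^ 2 + n + 1 → q = 13 := by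
      intro q hq hqv
      have := Fact.mk hq
      obtain ⟨g, hg⟩ := exists_prime_addOrderOf_dvd_card q (by rw [hv]; exact hqv)
      have h1 : q ∣ m - 1 := by
        rw [← hg]; exact addOrderOf_dvd_of_nsmul_eq_zero (hkill g)
      have h2 : n ^ 2 + n + 1 = (m - 1) * ((m + 3) * (n + 4)) + 13 := by
        obtain ⟨k, rfl⟩ : ∃ k, m = k + 1 := ⟨m - 1, by omega⟩
        rw [hn]
        simp only [Nat.add_sub_cancel]
        ring
      have h4 : q ∣ 13 := by
        rw [h2] at hqv
        exact (Nat.dvd_add_right (h1.mul_right _)).1 hqv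
      exact (Nat.prime_dvd_prime_iff_eq hq (by norm_num)).1 h4
    have hpow := Nat.eq_prime_pow_of_unique_prime_dvd (by positivity) (fun {d} hd hdv => hprime d hd hdv)
    generalize (n ^ 2 + n + 1).primeFactorsList.length = k at hpow
    -- `k` is odd
    have hk2 : k % 2 = 1 := by
      by_contra hcon
      obtain ⟨j, rfl⟩ : ∃ j, k = j + j := ⟨k / 2, by omega⟩
      have h1 : n ^ 2 + n + 1 = 13 ^ j * 13 ^ j := by rw [hpow, pow_add]
      generalize 13 ^ j = y at h1
      have h2 : n < y := by nlinarith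
      have h4 : y < n + 1 := by nlinarith
      omega
    have hk3 : k % 3 = 0 := by
      have h1 : (n ^ 2 + n + 1) % 9 = 1 := by
        obtain ⟨c, hc⟩ := h9
        have : n ^ 2 + n + 1 = 9 * (c * n + c) + 1 := by
          calc n ^ 2 + n + 1 = n * n + n + 1 := by ring
            _ = (9 * c) * n + 9 * c + 1 := by rw [← hc]
            _ = _ := by ring
        omega
      rw [hpow] at h1
      have h2 : k = 3 * (k / 3) + k % 3 := by omega
      rw [h2, pow_add, pow_mul, Nat.mul_mod, Nat.pow_mod] at h1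
      norm_num at h1
      have h4 : k % 3 < 3 := Nat.mod_lt _ (by norm_num)
      interval_cases hk : k % 3
      · rfl
      · norm_num at h1
      · norm_num at h1
    obtain ⟨j, hj⟩ : ∃ j, k = 3 * (2 * j + 1) := ⟨k / 6, by omega⟩
    have h5 : ((n ^ 2 + n + 1 : ℕ) : ZMod 157) = ((13 ^ k : ℕ) : ZMod 157) := by rw [hpow]
    push_cast at h5
    have h6 : (13 : ZMod 157) ^ 3 = -1 := by decide +kernel
    have h7 : (13 : ZMod 157) ^ k = -1 := by
      rw [hj, pow_mul, h6, pow_succ, pow_mul]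
      simp
    rw [h7] at h5
    exact zmod157 _ h5

theorem result (m : ℕ) (hm : Odd m) (h3 : 3 ≤ m) (G : Type*) [AddCommGroup G] (D : Finset G) :
    ¬ IsPlanarDifferenceSet G (m * (m + 2)) D := by
  rintro ⟨h1, h2, h4⟩
  exact main m hm h3 D ⟨h1, h2, h4⟩

end Pool.Agent.Results.MP_104832_co.OddProduct
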